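import Pool.Agent.H95.Step

set_option autoImplicit false

theorem Pool.Agent.Results.MP_68c038_an.Cont.result (X : Type*) [NormedAddCommGroup X]
    [NormedSpace ℝ X] [CompleteSpace X] (T : X → X) (hb : Function.Bijective T)
    (h : ∀ x y, ⌊‖x - y‖⌋ = ⌊‖T x - T y‖⌋) : Continuous T := by
  refine Pool.Agent.H95.Step.main (Equiv.ofBijective T hb) ⟨hb.2, fun k x y => ?_⟩
  have e : ∀ r : ℝ, r < k ↔ ⌊r⌋ < (k : ℤ) := fun r => by rw [Int.floor_lt]; simp
  rw [e, e, h x y]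
  rfl
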